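import Pool.Agent.Helper16.NL.Mean
import Pool.Agent.Helper16.NL.Lcs

/-!
# Nilmanifolds of every step, small sets of horizontal directions

`G` is a nilpotent group of any step with a lattice `Γ` in Mal'cev coordinates, `E` a compact set in the horizontal torus
`G/[G,G]Γ` such that all numbers `k · x`, `x ∈ E`, `k ≠ 0` an integer vector, are irrational, and the set `k · E` has small
measure for finitely many `k`. For every continuous `F` on `G/Γ`, on logarithmic average over `n ≤ N`, the supremum over ALL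
`g ∈ G` with horizontal part in `E` and ALL points `y` of the nilmanifold of `|∑_{h ≤ H} F(g^(n+h) y) μ(n+h)|` is at most
`ε H`, uniformly over `N ≥ H ≥ H₀`; and the same holds for all bounded multiplicative functions in place of `μ`, uniformly,
if the mean value of `F` is subtracted.
-/

set_option autoImplicit false

open Finset MeasureTheory

namespace Pool.Agent.Results.MP_663568_nt.AllNilmanifolds

/-- Mal'cev coordinates of a nilpotent topological group `G` and a subgroup `Γ`, along the lower central series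
`G = G₀ ≥ G₁ ≥ …`, `G_{i+1} = [G_i, G]`, with `G_s = 1`: isomorphisms `proj i` of `G_i/G_{i+1}` with `ℝ^(d i)` which are
integral on `Γ ∩ G_i`, and continuous sections `sect i : ℝ^(d i) → G_i` which map the integral vectors into `Γ`. By
a theorem of Mal'cev they exist for every connected simply connected nilpotent Lie group `G` and every lattice `Γ`. -/
structure MalcevCoordinates (G : Type) [Group G] [TopologicalSpace G] (Γ : Subgroup G) where
  s : ℕ
  nilpotent : (⊤ : Subgroup G).lowerCentralSeries s = ⊥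
  d : ℕ → ℕ
  proj : ∀ i, (⊤ : Subgroup G).lowerCentralSeries i → Fin (d i) → ℝ
  proj_continuous : ∀ i, Continuous (proj i)
  proj_mul : ∀ i (x y : (⊤ : Subgroup G).lowerCentralSeries i), proj i (x * y) = proj i x + proj i y
  proj_ker : ∀ i (x : (⊤ : Subgroup G).lowerCentralSeries i), proj i x = 0 ↔ (x : G) ∈ (⊤ : Subgroup G).lowerCentralSeries (i + 1)
  proj_int : ∀ i (x : (⊤ : Subgroup G).lowerCentralSeries i), (x : G) ∈ Γ → ∃ m : Fin (d i) → ℤ, proj i x = fun j => (m j : ℝ)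
  sect : ∀ i, (Fin (d i) → ℝ) → (⊤ : Subgroup G).lowerCentralSeries i
  sect_continuous : ∀ i, Continuous (sect i)
  proj_sect : ∀ i t, proj i (sect i t) = t
  sect_int : ∀ i (m : Fin (d i) → ℤ), (sect i (fun j => (m j : ℝ)) : G) ∈ Γ

/-- The horizontal part of `g ∈ G`: its image in the horizontal torus `G/[G,G]Γ = ℝ^d/ℤ^d`, `d = d 0`. -/
noncomputable def horizontal {G : Type} [Group G] [TopologicalSpace G] {Γ : Subgroup G} (M : MalcevCoordinates G Γ) (g : G) :
    Fin (M.d 0) → UnitAddCircle :=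
  fun i => ((M.proj 0 ⟨g, Subgroup.mem_top g⟩ i : ℝ) : UnitAddCircle)

/-- `E` is a compact set in the torus `ℝ^d/ℤ^d`, for every integer vector `k ≠ 0` the numbers `k · x`, `x ∈ E`, are
irrational modulo one, and if `|k_i| ≤ K` for all `i` they form a set of measure at most `δ`. -/
def SmallHorizontal {d : ℕ} (δ : ℝ) (K : ℕ) (E : Set (Fin d → UnitAddCircle)) : Prop :=
  IsCompact E ∧ ∀ k : Fin d → ℤ, k ≠ 0 →
    (∀ x ∈ E, ∀ t : ℝ, (t : UnitAddCircle) = ∑ i, k i • x i → Irrational t) ∧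
    ((∀ i, |k i| ≤ K) → volume ((fun x : Fin d → UnitAddCircle => ∑ i, k i • x i) '' E) ≤ ENNReal.ofReal δ)

/-- `f` is multiplicative and bounded by one. -/
def IsBoundedMultiplicative (f : ℕ → ℂ) : Prop :=
  (∀ n, ‖f n‖ ≤ 1) ∧ ∀ a b : ℕ, a.Coprime b → f (a * b) = f a * f b

/-- The supremum of `|∑_{1 ≤ h ≤ H} f(n + h) F(g^(n+h) y)|` over all `g ∈ G` with horizontal part in `E` and all
`y ∈ G/Γ`. -/
noncomputable def windowSup {G : Type} [Group G] [TopologicalSpace G] {Γ : Subgroup G} (M : MalcevCoordinates G Γ)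
    (F : G ⧸ Γ → ℂ) (E : Set (Fin (M.d 0) → UnitAddCircle)) (f : ℕ → ℂ) (n H : ℕ) : ℝ :=
  ⨆ p : {g : G // horizontal M g ∈ E} × (G ⧸ Γ), ‖∑ h ∈ Icc 1 H, f (n + h) * F (p.1.1 ^ (n + h) • p.2)‖

/-- the Möbius function -/
noncomputable def mu (n : ℕ) : ℂ := ((ArithmeticFunction.moebius n : ℤ) : ℂ)

open Pool.Agent.Helper16.NL
open Pool.Agent.Helper44K9.FU (Mul1)

/-- the data for the helper files -/
noncomputable def toNil {G : Type} [Group G] [TopologicalSpace G] [IsTopologicalGroup G] {Γ : Subgroup G}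
    (M : MalcevCoordinates G Γ) : NilData G Γ := by
  classical
  exact
  { fil := (⊤ : Subgroup G).lowerCentralSeries
    fil_zero := rfl
    fil_anti := fun i => Subgroup.lowerCentralSeries_antitone _ (Nat.le_succ i)
    comm := fun i j x y hx hy => lcs_comm i j (Subgroup.commutator_mem_commutator hx hy)
    s := M.s
    fil_s := M.nilpotent
    ι := fun i => Fin (M.d i)
    fin := fun _ => inferInstance
    π := fun i g => if h : g ∈ (⊤ : Subgroup G).lowerCentralSeries i then M.proj i ⟨g, h⟩ else 0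
    π_cont := by
      intro i
      rw [continuousOn_iff_continuous_domRestrict]
      refine (M.proj_continuous i).congr fun x => ?_
      rw [Set.domRestrict_apply, dif_pos x.2]
    π_mul := by
      intro i x y hx hy
      rw [dif_pos hx, dif_pos hy, dif_pos (mul_mem hx hy)]
      exact M.proj_mul i ⟨x, hx⟩ ⟨y, hy⟩
    π_ker := by
      intro i x hx
      rw [dif_pos hx]
      exact M.proj_ker i ⟨x, hx⟩
    π_int := by
      intro i x hx hΓ
      rw [dif_pos hx]
      exact M.proj_int i ⟨x, hx⟩ hΓ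
    σ := fun i t => (M.sect i t : G)
    σ_cont := fun i => continuous_subtype_val.comp (M.sect_continuous i)
    σ_mem := fun i t => (M.sect i t).2
    π_σ := by
      intro i t
      rw [dif_pos (M.sect i t).2]
      exact M.proj_sect i t
    σ_int := fun i m => M.sect_int i m
    nd := by
      intro i m hm
      have key : ∀ x (hx : x ∈ (⊤ : Subgroup G).lowerCentralSeries (i + 1)), ∑ j, (m j : ℝ) * M.proj (i + 1) ⟨x, hx⟩ j = 0 := by
        intro x hx
        have h1 : (x : G) ∈ Subgroup.closure {g : G | ∃ p ∈ (⊤ : Subgroup G).lowerCentralSeries i, ∃ q ∈ (⊤ : Subgroup G),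
          p * q * p⁻¹ * q⁻¹ = g} := hx
        induction h1 using Subgroup.closure_induction with
        | mem y hy =>
          obtain ⟨p, hp, q, _, rfl⟩ := hy
          have h2 := hm p hp q
          have h3 : p * q * p⁻¹ * q⁻¹ ∈ (⊤ : Subgroup G).lowerCentralSeries (i + 1) := hx
          simp only [dif_pos h3] at h2
          exact h2
        | one =>
          have h2 := M.proj_mul (i + 1) 1 1
          rw [mul_one] at h2
          have h3 : M.proj (i + 1) 1 = 0 := by simpa using h2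
          have h4 : M.proj (i + 1) ⟨1, hx⟩ = 0 := h3
          rw [h4]
          simp
        | mul y z hy hz ihy ihz =>
          have h2 := M.proj_mul (i + 1) ⟨y, hy⟩ ⟨z, hz⟩
          have h4 : M.proj (i + 1) ⟨y * z, hx⟩ = M.proj (i + 1) ⟨y, hy⟩ + M.proj (i + 1) ⟨z, hz⟩ := h2
          rw [h4]
          simp only [Pi.add_apply, mul_add, sum_add_distrib]
          rw [ihy hy, ihz hz, add_zero]
        | inv y hy ihy =>
          have h2 := M.proj_mul (i + 1) ⟨y, hy⟩ ⟨y⁻¹, hx⟩
          have h3 : M.proj (i + 1) 1 = 0 := by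
            have h2 := M.proj_mul (i + 1) 1 1
            rw [mul_one] at h2
            simpa using h2
          have h4 : (⟨y, hy⟩ * ⟨y⁻¹, hx⟩ : (⊤ : Subgroup G).lowerCentralSeries (i + 1)) = 1 := by
            apply Subtype.ext
            show y * y⁻¹ = 1
            exact mul_inv_cancel y
          rw [h4, h3] at h2
          have h5 : M.proj (i + 1) ⟨y⁻¹, hx⟩ = -M.proj (i + 1) ⟨y, hy⟩ := eq_neg_of_add_eq_zero_right h2.symm
          rw [h5]
          simp only [Pi.neg_apply, mul_neg, sum_neg_distrib]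
          rw [ihy hy, neg_zero]
      funext j
      have h1 := key (M.sect (i + 1) (Pi.single j 1)) (M.sect (i + 1) (Pi.single j 1)).2
      have h2 : M.proj (i + 1) ⟨(M.sect (i + 1) (Pi.single j 1) : G), (M.sect (i + 1) (Pi.single j 1)).2⟩ = Pi.single j 1 :=
        M.proj_sect (i + 1) _
      rw [h2] at h1
      simp only [Pi.single_apply, mul_ite, mul_one, mul_zero, sum_ite_eq', mem_univ, if_true] at h1
      exact_mod_cast h1 }

lemma irr_of {θ : UnitAddCircle} (h : ∀ t : ℝ, (t : UnitAddCircle) = θ → Irrational t) : addOrderOf θ = 0 := by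
  obtain ⟨t, ht⟩ := QuotientAddGroup.mk_surjective θ
  have h3 : Irrational t := h t ht
  rw [← ht]
  by_contra hne
  have h5 := addOrderOf_nsmul_eq_zero (t : UnitAddCircle)
  rw [← AddCircle.coe_nsmul, AddCircle.coe_eq_zero_iff] at h5
  obtain ⟨j, hj⟩ := h5
  apply h3
  refine ⟨(j : ℚ) / (addOrderOf (t : UnitAddCircle) : ℚ), ?_⟩
  push_cast
  rw [div_eq_iff (by exact_mod_cast hne)]
  simp only [zsmul_eq_mul, mul_one, nsmul_eq_mul] at hj
  rw [hj]
  ring

variable {G : Type} [Group G] [TopologicalSpace G] [IsTopologicalGroup G] {Γ : Subgroup G} (M : MalcevCoordinates G Γ)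

lemma md_eq (g : G) : md ((toNil M).π 0 g) = horizontal M g := by
  funext i
  have h1 : (toNil M).π 0 g = M.proj 0 ⟨g, Subgroup.mem_top g⟩ := dif_pos (Subgroup.mem_top g)
  show (((toNil M).π 0 g i : ℝ) : UnitAddCircle) = _
  rw [h1]
  rfl

lemma sm_of {δ : ℝ} {K : ℕ} {E : Set (Fin (M.d 0) → UnitAddCircle)} (hE : SmallHorizontal δ K E) :
    Sm (ι := (toNil M).ι 0) δ K E :=
  ⟨hE.1, fun k hk x hx => irr_of ((hE.2 k hk).1 x hx), fun k hk => (hE.2 k hk.1).2 hk.2⟩

lemma sup_le {F : G ⧸ Γ → ℂ} {B : ℝ} (hB : ∀ x, ‖F x‖ ≤ B) (E : Set (Fin (M.d 0) → UnitAddCircle)) {f : ℕ → ℂ}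
    (hf : ∀ n, ‖f n‖ ≤ 1) (n H : ℕ) :
    windowSup M F E f n H ≤ nS (toNil M) (fun g => F (g : G ⧸ Γ)) E f n H := by
  refine Real.iSup_le (fun p => ?_) (nS_nonneg _ _ _ _ _)
  obtain ⟨⟨g, hg⟩, y⟩ := p
  obtain ⟨x, rfl⟩ := QuotientGroup.mk_surjective y
  have hg' : md ((toNil M).π 0 g) ∈ E := by rw [md_eq]; exact hg
  exact le_nS (toNil M) (F := fun g => F (g : G ⧸ Γ)) (fun g => hB _) hf n H ⟨⟨g, hg'⟩, x⟩

include M in
lemma bd_of (F : C(G ⧸ Γ, ℂ)) : ∃ B : ℝ, ∀ x, ‖F x‖ ≤ B := by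
  obtain ⟨B, _, hB⟩ := (toNil M).bdd (F := fun g => F (g : G ⧸ Γ)) (F.continuous.comp QuotientGroup.continuous_mk)
    (fun g γ hγ => by
      have : ((g * γ : G) : G ⧸ Γ) = (g : G ⧸ Γ) := QuotientGroup.mk_mul_of_mem g hγ
      simp only [this])
  refine ⟨B, fun x => ?_⟩
  obtain ⟨g, rfl⟩ := QuotientGroup.mk_surjective x
  exact hB g

/-- **Nilmanifolds of every step, small sets of horizontal directions.** Let `G` be a nilpotent group of any step and `Γ`
a lattice in Mal'cev coordinates, `F` a continuous function on `G/Γ` and `ε > 0`.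
(1) There are `δ > 0` and `K` such that for each compact set `E` in the horizontal torus for which the numbers `k · x`,
`x ∈ E`, are irrational for all integer vectors `k ≠ 0` and the measure of `k · E` is at most `δ` if `|k_i| ≤ K` for all
`i`, there is `H₀` such that for all `N ≥ H ≥ H₀`
`∑_{n ≤ N} (1/n) sup_{g, y} |∑_{h ≤ H} F(g^(n+h) y) μ(n+h)| ≤ ε H log N`, the supremum over all `g ∈ G` with horizontal
part in `E` and all `y ∈ G/Γ`.
(2) The same holds for all multiplicative functions `f` bounded by one in place of `μ`, uniformly in `f`, if `F` is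
replaced by `F` minus its mean value `∫ F dρ`, `ρ` the `G`-invariant probability measure on `G/Γ`. -/
theorem result {G : Type} [Group G] [TopologicalSpace G] [IsTopologicalGroup G] {Γ : Subgroup G}
    (M : MalcevCoordinates G Γ) (F : C(G ⧸ Γ, ℂ)) (ε : ℝ) (hε : 0 < ε) :
    (∃ δ : ℝ, 0 < δ ∧ ∃ K : ℕ, ∀ E : Set (Fin (M.d 0) → UnitAddCircle), SmallHorizontal δ K E →
      ∃ H₀ : ℕ, ∀ N H : ℕ, H₀ ≤ H → H ≤ N →
        ∑ n ∈ Icc 1 N, (1 / (n : ℝ)) * windowSup M F E mu n H ≤ ε * H * Real.log N) ∧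
    ∀ [MeasurableSpace (G ⧸ Γ)] [BorelSpace (G ⧸ Γ)] (ρ : Measure (G ⧸ Γ)), IsProbabilityMeasure ρ →
      (∀ g : G, ρ.map (fun x => g • x) = ρ) →
      ∃ δ : ℝ, 0 < δ ∧ ∃ K : ℕ, ∀ E : Set (Fin (M.d 0) → UnitAddCircle), SmallHorizontal δ K E →
        ∃ H₀ : ℕ, ∀ f : ℕ → ℂ, IsBoundedMultiplicative f → ∀ N H : ℕ, H₀ ≤ H → H ≤ N →
          ∑ n ∈ Icc 1 N, (1 / (n : ℝ)) * windowSup M (fun x => F x - ∫ y, F y ∂ρ) E f n H ≤ ε * H * Real.log N := by
  have hc : Continuous fun g : G => F (g : G ⧸ Γ) := F.continuous.comp QuotientGroup.continuous_mk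
  have hΓ : ∀ g γ : G, γ ∈ Γ → F ((g * γ : G) : G ⧸ Γ) = F (g : G ⧸ Γ) := fun g γ hγ => by
    rw [QuotientGroup.mk_mul_of_mem g hγ]
  have hinv : ∀ z ∈ (toNil M).fil M.s, ∀ g : G, F ((z * g : G) : G ⧸ Γ) = F (g : G ⧸ Γ) := by
    intro z hz g
    rw [(toNil M).fil_big (le_refl M.s) hz, one_mul]
  obtain ⟨B, hB⟩ := bd_of M F
  refine ⟨?_, ?_⟩
  · obtain ⟨δ, hδ, K, h⟩ := (gd_mu (toNil M) M.s _ hc hΓ hinv).2 ε hε
    refine ⟨δ, hδ, K, fun E hE => ?_⟩
    obtain ⟨H₀, hH₀⟩ := h E (sm_of M hE)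
    refine ⟨H₀, fun N H hH hN => ?_⟩
    refine le_trans (sum_le_sum fun n _ => mul_le_mul_of_nonneg_left ?_ (by positivity)) (hH₀ _ rfl N H hH hN)
    exact sup_le M hB E Pool.Agent.Helper44K9.FB.mu_mult.1 n H
  · intro _ _ ρ hρ1 hρ
    have hq : ∫ y, F y ∂ρ = ∫ x, (qf (fun g : G => F (g : G ⧸ Γ)) : G ⧸ Γ → ℂ) x ∂ρ := by
      refine integral_congr_ae (Filter.Eventually.of_forall fun x => ?_)
      obtain ⟨g, rfl⟩ := QuotientGroup.mk_surjective x
      exact (qf_mk (F := fun g : G => F (g : G ⧸ Γ)) hΓ g).symm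
    obtain ⟨δ, hδ, K, h⟩ := (gd_all (toNil M) ρ (𝓕 := {f | IsBoundedMultiplicative f}) hρ (fun f hf => hf) M.s _ hc hΓ
      hinv).2 ε hε
    refine ⟨δ, hδ, K, fun E hE => ?_⟩
    obtain ⟨H₀, hH₀⟩ := h E (sm_of M hE)
    refine ⟨H₀, fun f hf N H hH hN => ?_⟩
    refine le_trans (sum_le_sum fun n _ => mul_le_mul_of_nonneg_left ?_ (by positivity)) (hH₀ f hf N H hH hN)
    have h1 := sup_le M (F := fun x => F x - ∫ y, F y ∂ρ) (B := B + ‖∫ y, F y ∂ρ‖)
      (fun x => (norm_sub_le _ _).trans (add_le_add (hB x) le_rfl)) E hf.1 n H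
    rw [hq] at h1
    rw [hq]
    exact h1

end Pool.Agent.Results.MP_663568_nt.AllNilmanifolds
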