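import Pool.Agent.Helper16.NL.Join
import Pool.Agent.Results.MP_663568_nt.AllNilmanifolds
import Pool.Graph.R_pool_sql_team_seeded_1e53cb71.Helper44K9.FS.Scale

/-!
# Systems whose ergodic components are inverse limits of nilrotations of any step

Möbius disjointness, in logarithmic mean and at most scales, for topological systems whose invariant measures may have
uncountably many ergodic components, which are ergodic rotations of nilmanifolds of any step, or factors or inverse limits of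
such rotations, with singular distributions of the horizontal frequencies.
-/

set_option autoImplicit false

open Finset MeasureTheory Filter Topology

namespace Pool.Agent.Results.MP_663568_nt.NilLimits

open Pool.Agent.Results.MP_663568_nt.AllNilmanifolds (MalcevCoordinates horizontal)

universe u

/-- the Möbius function -/
noncomputable def mu (n : ℕ) : ℂ := ((ArithmeticFunction.moebius n : ℤ) : ℂ)

/-- `ν` is a weak* cluster point, for `N → ∞`, of the logarithmic empirical measures `(1/log N) ∑_{n ≤ N} δ(Tⁿ x)/n`. -/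
def LogClusterPoint {X : Type u} [MetricSpace X] [MeasurableSpace X] (T : X → X) (x : X) (ν : Measure X) : Prop :=
  ∀ (F : Finset C(X, ℂ)) (ε : ℝ), 0 < ε → ∀ N₀ : ℕ, ∃ N ≥ N₀, ∀ g ∈ F,
    ‖(1 / (Real.log (N : ℝ) : ℂ)) * ∑ n ∈ Icc 1 N, g (T^[n] x) / (n : ℂ) - ∫ y, g y ∂ν‖ < ε

/-- the value `k · x` of the integral linear form `k` -/
def form {m : ℕ} (k : Fin m → ℤ) (x : Fin m → UnitAddCircle) : UnitAddCircle := ∑ i, k i • x i

open Classical in
/-- the set `A` of natural numbers has logarithmic density zero -/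
def LogDensityZero (A : Set ℕ) : Prop := Tendsto
  (fun X : ℕ => (∑ n ∈ Icc 1 X, if n ∈ A then (1 : ℝ) / n else 0) / Real.log X) atTop (𝓝 0)

/-- The function `f` on `(X, T, ν)` is, up to `ε` in the mean, a function of a family of nilrotations: there are a nilpotent
group `G` of some step and a lattice `Γ` in Mal'cev coordinates, a family `g ω ∈ G`, `ω ∈ Ω`, for some compact metric space
`Ω`, a coupling `lam` of `(X, T, ν)` with the family of rotations `(ω, y) ↦ (ω, g(ω) y)` of `Ω × G/Γ`, invariant under the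
product of the two maps, and a continuous function `F` on `Ω × G/Γ` such that `∫ |f(x) - F(ω, y)| d lam ≤ ε`; for all integer
vectors `k ≠ 0` the distribution of the frequency `k · (horizontal part of g ω)` is singular with respect to Lebesgue
measure, and almost all of these frequencies are irrational (almost all the rotations are ergodic). -/
def NearNilrotations {X : Type u} [MetricSpace X] [MeasurableSpace X] (T : X → X) (ν : Measure X) (f : C(X, ℂ))
    (ε : ℝ) : Prop :=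
  ∃ (G : Type) (_ : Group G) (_ : TopologicalSpace G) (_ : IsTopologicalGroup G) (_ : SecondCountableTopology G)
    (Γ : Subgroup G) (M : MalcevCoordinates G Γ) (_ : MeasurableSpace (G ⧸ Γ)) (_ : BorelSpace (G ⧸ Γ))
    (Ω : Type) (_ : MetricSpace Ω) (_ : CompactSpace Ω) (_ : MeasurableSpace Ω) (_ : BorelSpace Ω)
    (g : Ω → G) (lam : Measure (X × Ω × (G ⧸ Γ))) (F : C(Ω × (G ⧸ Γ), ℂ)),
    Measurable (fun ω => horizontal M (g ω)) ∧ IsFiniteMeasure lam ∧
    MeasurePreserving (fun z : X × Ω × (G ⧸ Γ) => (T z.1, z.2.1, g z.2.1 • z.2.2)) lam lam ∧ lam.map Prod.fst = ν ∧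
    ∫ z, ‖f z.1 - F z.2‖ ∂lam ≤ ε ∧
    ∀ k : Fin (M.d 0) → ℤ, k ≠ 0 →
      (lam.map fun z => form k (horizontal M (g z.2.1))) ⟂ₘ (volume : Measure UnitAddCircle) ∧
      ∀ᵐ z ∂lam, ∀ t : ℝ, (t : UnitAddCircle) = form k (horizontal M (g z.2.1)) → Irrational t

/-- `(X, T, ν)` is a limit of families of nilrotations. -/
def IsNilLimit {X : Type u} [MetricSpace X] [MeasurableSpace X] (T : X → X) (ν : Measure X) : Prop :=
  ∀ (f : C(X, ℂ)) (ε : ℝ), 0 < ε → NearNilrotations T ν f ε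

open Pool.Agent.Helper44K9.FS Pool.Agent.Helper16.NL

lemma mu_le (n : ℕ) : ‖mu n‖ ≤ 1 := by
  unfold mu
  rw [Complex.norm_intCast]
  have h1 := ArithmeticFunction.abs_moebius_le_one (n := n)
  exact_mod_cast h1

lemma of_irr {θ : UnitAddCircle} (h : addOrderOf θ = 0) (t : ℝ) (ht : (t : UnitAddCircle) = θ) : Irrational t := by
  rintro ⟨q, hq⟩
  rw [addOrderOf_eq_zero_iff, isOfFinAddOrder_iff_nsmul_eq_zero] at h
  apply h
  refine ⟨q.den, q.pos, ?_⟩
  rw [← ht, ← hq, ← AddCircle.coe_nsmul, AddCircle.coe_eq_zero_iff]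
  refine ⟨q.num, ?_⟩
  rw [zsmul_eq_mul, mul_one, nsmul_eq_mul]
  have h2 := Rat.den_mul_eq_num q
  have h3 : ((q.den : ℝ)) * (q : ℝ) = (q.num : ℝ) := by exact_mod_cast h2
  rw [h3]

lemma cpt_of {G : Type} [Group G] [TopologicalSpace G] [IsTopologicalGroup G] {Γ : Subgroup G} (M : MalcevCoordinates G Γ) :
    CompactSpace (G ⧸ Γ) := by
  obtain ⟨C, hC, h⟩ := (AllNilmanifolds.toNil M).cpt0
  refine ⟨?_⟩
  have h1 : (Set.univ : Set (G ⧸ Γ)) = QuotientGroup.mk '' C := by
    refine (Set.eq_univ_of_forall fun x => ?_).symm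
    obtain ⟨g, rfl⟩ := QuotientGroup.mk_surjective x
    obtain ⟨c, hc, γ, hγ, rfl⟩ := h g
    exact ⟨c, hc, (QuotientGroup.mk_mul_of_mem c hγ).symm⟩
  rw [h1]
  exact hC.image QuotientGroup.continuous_mk

/-- the windows of nilrotations -/
lemma momo_nil {G : Type} [Group G] [TopologicalSpace G] [IsTopologicalGroup G] {Γ : Subgroup G} (M : MalcevCoordinates G Γ)
    (E : Set (Fin (M.d 0) → UnitAddCircle)) (hEc : IsCompact E)
    (hE : ∀ k ∈ {k : Fin (M.d 0) → ℤ | k ≠ 0}, volume (Pool.Agent.Helper44K9.FB.lf k '' E) = 0 ∧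
      ∀ x ∈ E, addOrderOf (Pool.Agent.Helper44K9.FB.lf k x) = 0) (F : C(G ⧸ Γ, ℂ)) :
    Momo mu (Win (fun (a : G) (y : G ⧸ Γ) => a • y) (horizontal M) E F) := by
  have := cpt_of M
  have hit : ∀ (a : G) (y : G ⧸ Γ) (n : ℕ), (fun y : G ⧸ Γ => a • y)^[n] y = a ^ n • y := by
    intro a y n
    induction n with
    | zero => simp
    | succ n ih => rw [Function.iterate_succ_apply', ih, pow_succ', mul_smul]
  intro ε hε
  obtain ⟨δ, hδ, K, h1⟩ := (AllNilmanifolds.result M F ε hε).1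
  have hSm : AllNilmanifolds.SmallHorizontal δ K E := by
    refine ⟨hEc, fun k hk => ⟨fun x hx t ht => of_irr ((hE k hk).2 x hx) t ht, fun _ => ?_⟩⟩
    have h2 : volume ((fun x : Fin (M.d 0) → UnitAddCircle => ∑ i, k i • x i) '' E) = 0 := (hE k hk).1
    rw [h2]
    exact zero_le
  obtain ⟨H₀, h2⟩ := h1 E hSm
  refine ⟨H₀, fun H hH => ⟨H, fun N hN w hw => ?_⟩⟩
  have hb : ∀ n, BddAbove (Set.range fun p : {g : G // horizontal M g ∈ E} × (G ⧸ Γ) =>
      ‖∑ h ∈ Icc 1 H, AllNilmanifolds.mu (n + h) * F (p.1.1 ^ (n + h) • p.2)‖) := by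
    intro n
    refine ⟨∑ h ∈ Icc 1 H, ‖F‖, ?_⟩
    rintro _ ⟨q, rfl⟩
    refine (norm_sum_le _ _).trans (sum_le_sum fun h _ => ?_)
    rw [norm_mul]
    calc _ ≤ 1 * ‖F‖ := mul_le_mul (mu_le _) (F.norm_coe_le_norm _) (norm_nonneg _) zero_le_one
      _ = ‖F‖ := one_mul _
  calc ∑ n ∈ Icc 1 N, (1 / (n : ℝ)) * ‖∑ h ∈ Icc 1 H, mu (n + h) * w n h‖ ≤
      ∑ n ∈ Icc 1 N, (1 / (n : ℝ)) * AllNilmanifolds.windowSup M F E AllNilmanifolds.mu n H := by
        refine sum_le_sum fun n _ => mul_le_mul_of_nonneg_left ?_ (by positivity)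
        rcases hw n with h3 | h3
        · obtain ⟨a, ha, y, h3⟩ := h3
          rw [h3]
          refine le_trans (le_of_eq ?_) (le_ciSup (hb n) (⟨a, ha⟩, (a ^ n)⁻¹ • y))
          congr 1
          refine sum_congr rfl fun h _ => ?_
          show mu (n + h) * F ((fun y : G ⧸ Γ => a • y)^[h] y) = mu (n + h) * F (a ^ (n + h) • (a ^ n)⁻¹ • y)
          rw [hit, smul_smul, add_comm n h, pow_add, mul_assoc, mul_inv_cancel, mul_one]
        · rw [h3]
          simp only [Pi.zero_apply, mul_zero, sum_const_zero, norm_zero]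
          exact Real.iSup_nonneg fun _ => norm_nonneg _
    _ ≤ ε * H * Real.log N := h2 N H hH hN
    _ ≤ ε * H * hs N := mul_le_mul_of_nonneg_left (le_hs N) (by positivity)

/-- the windows of one limit -/
lemma fac_of {X : Type u} [MetricSpace X] [CompactSpace X] [MeasurableSpace X] [BorelSpace X] {T : X → X}
    (hT : Continuous T) (f : C(X, ℂ)) {ν : Measure X} (h : IsNilLimit T ν) (ε : ℝ) (hε : 0 < ε) :
    ∃ W : Set (ℕ → ℂ), Momo mu W ∧ ∀ H : ℕ, 1 ≤ H →
      ν.real Set.univ - ε ≤ ν.real {y | ∃ w ∈ W, ∑ h ∈ Icc 1 H, ‖f (T^[h] y) - w h‖ < ε * H} := by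
  obtain ⟨G, _, _, _, _, Γ, M, _, _, Ω, _, _, _, _, g, lam, F, h1, h2, h3, h4, h5, h6⟩ := h f (ε ^ 2 / 16) (by positivity)
  have := cpt_of M
  obtain ⟨W, hW, h7⟩ := facJ hT f mu (fun (a : G) (y : G ⧸ Γ) => a • y) (horizontal M) {k | k ≠ 0}
    (fun E hEc hE F => momo_nil M E hEc hE F) g h1 lam h3 (fun k hk => (h6 k hk).1)
    (fun k hk => by filter_upwards [(h6 k hk).2] with z hz; exact AllNilmanifolds.irr_of hz) F ε hε h5
  refine ⟨W, hW, fun H hH => ?_⟩
  have h8 := h7 H hH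
  rw [h4] at h8
  have h9 : ν.real Set.univ = lam.real Set.univ := by
    rw [← h4, map_measureReal_apply measurable_fst MeasurableSet.univ, Set.preimage_univ]
  rw [h9]
  exact h8

/-- the windows of the cluster points -/
lemma win_of {X : Type u} [MetricSpace X] [CompactSpace X] [MeasurableSpace X] [BorelSpace X] {T : X → X}
    (hT : Continuous T) (f : C(X, ℂ)) {ν : Measure X} (hν : IsProbabilityMeasure ν) {ν' : ℕ → Measure X}
    (h1 : ∀ j, IsNilLimit T (ν' j)) (h2 : ν = Measure.sum ν') (ε : ℝ) (hε : 0 < ε) :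
    ∃ W : Set (ℕ → ℂ), Momo mu W ∧ ∀ H : ℕ, 1 ≤ H →
      ENNReal.ofReal (1 - ε) ≤ ν {y | ∃ w ∈ W, ∑ h ∈ Icc 1 H, ‖f (T^[h] y) - w h‖ < ε * H} := by
  have hle : ∀ s : Finset ℕ, ∑ j ∈ s, ν' j ≤ ν := by
    intro s
    rw [h2]
    refine Measure.le_iff.2 fun A hA => ?_
    rw [Measure.sum_apply _ hA, Measure.finsetSum_apply]
    exact ENNReal.sum_le_tsum s
  have hfin : ∀ j, IsFiniteMeasure (ν' j) := by
    intro j
    have h3 : ν' j ≤ ν := by
      have := hle {j}
      rwa [sum_singleton] at this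
    exact isFiniteMeasure_of_le ν h3
  have htot : HasSum (fun j => (ν' j).real Set.univ) 1 := by
    have h3 : ∑' j, ν' j Set.univ = 1 := by
      rw [← Measure.sum_apply _ MeasurableSet.univ, ← h2]
      exact measure_univ
    have h4 := ENNReal.hasSum_toReal (f := fun j => ν' j Set.univ) (by rw [h3]; exact ENNReal.one_ne_top)
    rw [← ENNReal.tsum_toReal_eq (fun j => measure_ne_top _ _), h3, ENNReal.toReal_one] at h4
    exact h4
  obtain ⟨J, hJ⟩ := (htot.eventually (lt_mem_nhds (show 1 - ε / 2 < 1 by linarith))).exists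
  set ε' : ℝ := ε / (2 * (#J + 1)) with hε'
  have hε'0 : 0 < ε' := by positivity
  have hε'1 : ε' ≤ ε := by
    rw [hε', div_le_iff₀ (by positivity)]
    have : (0 : ℝ) ≤ #J := Nat.cast_nonneg _
    nlinarith
  have hε'2 : (#J : ℝ) * ε' ≤ ε / 2 := by
    rw [hε', mul_div_assoc', div_le_div_iff₀ (by positivity) (by norm_num)]
    have : (0 : ℝ) ≤ #J := Nat.cast_nonneg _
    nlinarith
  choose W hW hWν using fun j => fac_of hT f (h1 j) ε' hε'0
  refine ⟨⋃ j ∈ (J : Set ℕ), W j, Momo.biUnion _ J.finite_toSet fun j _ => hW j, fun H hH => ?_⟩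
  have hHr : (1 : ℝ) ≤ H := by exact_mod_cast hH
  set O : Set X := {y | ∃ w ∈ ⋃ j ∈ (J : Set ℕ), W j, ∑ h ∈ Icc 1 H, ‖f (T^[h] y) - w h‖ < ε * H} with hO
  have h3 : ∀ j ∈ J, (ν' j).real Set.univ - ε' ≤ (ν' j).real O := by
    intro j hj
    refine (hWν j H hH).trans (measureReal_mono ?_)
    rintro y ⟨w, hw, hy⟩
    refine ⟨w, ?_, hy.trans_le (mul_le_mul_of_nonneg_right hε'1 (by linarith))⟩
    rw [Set.mem_iUnion₂]
    exact ⟨j, hj, hw⟩
  have h4 : ∑ j ∈ J, (ν' j).real O ≤ ν.real O := by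
    have h5 := hle J O
    rw [Measure.finsetSum_apply] at h5
    have h6 : (∑ j ∈ J, ν' j O).toReal ≤ (ν O).toReal := ENNReal.toReal_mono (measure_ne_top _ _) h5
    rw [ENNReal.toReal_sum fun j _ => measure_ne_top _ _] at h6
    exact h6
  have h5 : ∑ j ∈ J, ((ν' j).real Set.univ - ε') ≤ ∑ j ∈ J, (ν' j).real O := sum_le_sum h3
  rw [sum_sub_distrib, sum_const, nsmul_eq_mul] at h5
  have h6 : 1 - ε ≤ ν.real O := by linarith
  exact ENNReal.ofReal_le_of_le_toReal h6

/-- **Systems whose ergodic components are nilrotations of any step or limits of such.** Let `(X, T)` be a topological system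
and `x` a point such that each invariant probability measure `ν` which is a cluster point of the logarithmic empirical
measures of `x` is a countable sum of limits of families of ergodic nilrotations (of any step, the step may be unbounded)
with singular distributions of the horizontal frequencies. Then the averages `(1/log N) ∑_{n ≤ N} f(T^n x) μ(n) / n` tend to
zero for every continuous `f`, and there is a set `A` of logarithmic density zero such that `(1/N) ∑_{n ≤ N} f(T^n x) μ(n)`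
tends to zero for `N → ∞`, `N ∉ A`, for every continuous `f`. -/
theorem result (X : Type u) [MetricSpace X] [CompactSpace X] [MeasurableSpace X] [BorelSpace X] (T : X → X)
    (hT : Continuous T) (x : X)
    (h : ∀ ν : Measure X, IsProbabilityMeasure ν → MeasurePreserving T ν ν → LogClusterPoint T x ν →
      ∃ ν' : ℕ → Measure X, (∀ j, IsNilLimit T (ν' j)) ∧ ν = Measure.sum ν') :
    (∀ f : C(X, ℂ), Tendsto (fun N : ℕ => (1 / (Real.log (N : ℝ) : ℂ)) *
      ∑ n ∈ Icc 1 N, f (T^[n] x) * mu n / (n : ℂ)) atTop (𝓝 0)) ∧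
    ∃ A : Set ℕ, LogDensityZero A ∧ ∀ f : C(X, ℂ), ∀ ε : ℝ, 0 < ε → ∃ N₀ : ℕ, ∀ N ≥ N₀, N ∉ A →
      ‖(1 / (N : ℂ)) * ∑ n ∈ Icc 1 N, f (T^[n] x) * mu n‖ ≤ ε := by
  have key : ∀ f : C(X, ℂ), ∀ ν : Measure X, IsProbabilityMeasure ν → MeasurePreserving T ν ν → LogClu T x ν →
      ∀ ε : ℝ, 0 < ε → ∃ W : Set (ℕ → ℂ), Momo mu W ∧ ∀ H : ℕ, 1 ≤ H →
        ENNReal.ofReal (1 - ε) ≤ ν {y | ∃ w ∈ W, ∑ h ∈ Icc 1 H, ‖f (T^[h] y) - w h‖ < ε * H} := by
    intro f ν hν hinv hclu ε hε
    obtain ⟨ν', h1, h2⟩ := h ν hν hinv hclu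
    exact win_of hT f hν h1 h2 ε hε
  exact ⟨fun f => crit hT x mu mu_le f (key f), most hT x mu mu_le key⟩

end Pool.Agent.Results.MP_663568_nt.NilLimits
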